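import Pool.Agent.ATW.Stmts

/-!
# Squad ATW, row LW2: the bound for the number of modular characters
-/

open scoped BigOperators

set_option autoImplicit false

noncomputable section

namespace Pool.Agent.PP.TW.H45

open Pool.Agent.Helper51_AWC Pool.Agent.Helper79_WRA Pool.Agent.PP Pool.Agent.PP.KF
open Pool.Agent.PP.K9 Pool.Agent.PP.K9.H97 Pool.Agent.PP.H75 Pool.Agent.PP.T3 Pool.Agent.PP.T2
open Pool.Agent.PP.T5 Pool.Agent.PP.TB
open Pool.Agent.PP.T8 (rs pw fv rd Ip Rv vv Dat Fr)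

attribute [local instance] Ideal.Quotient.field

theorem lw2 (inx : K9.InxStmt) (gtp : GtpStmt) (ln1 : Ln1Stmt) (dat : T8.DatStmt) (pr3 : Pr3Stmt)
    (fx3 : Fx3Stmt) (st3 : St3Stmt) (nr3 : Nr3Stmt) : Lw2Stmt := by
  intro M _ hM G _ _ e V γ hL a ha hexp hgen
  have hF : GoodF 2 (FF M) := H50.fld 2 Nat.prime_two M hM
  have hix : ¬ 2 ∣ ix V γ :=
    inx 2 M hM G e hL.blk V hL.tp hL.ab γ hL.gam.supp hL.gam.blk hL.und
  rcases gtp (FF M) hF G e V γ hL hix a ha hexp hgen with h1 | h3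
  · rw [ln1 2 M hM G e V γ hL h1]
    exact Nat.one_le_two_pow
  · obtain ⟨h3, hfr, hcard, y, w, hy, hoy, hw, hw2, hwy⟩ := h3
    obtain ⟨b, d, c, ε, hD⟩ := dat 2 M hM G e V γ hL
    obtain ⟨N, hN⟩ := pr3 G
    have hsw : Sw M a e V γ b d c ε y w :=
      { dat := hD, fr := hfr, i3 := h3.le, le := ha, exp := hexp, card := hcard, yV := hy,
        oy := hoy, wV := hw, w2 := hw2, wy := hwy }
    exact (fx3 M hM G N hN e hL.blk.1 (fun y hy hy2 b hb heb g hg =>
      st3 M hM G N hN e V γ hL y hy hy2 b hb heb g hg)).trans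
      (nr3 M hM G N hN a e V γ b d c ε y w hsw)

end Pool.Agent.PP.TW.H45
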